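import Mathlib
import Pool.Agent.Run7.h727.AltDefs
import Pool.Agent.Run7.h727.AltFree

/-!
# The free alternative ring has 3-torsion

The free alternative ring on a countably infinite set contains a nonzero element `f` with
`3 f = 0`; in particular it is not a free `ℤ`-module.
-/

/-- The free alternative ring `Alt_ℤ[X]` on the countably infinite set `X = ℕ` has a nonzero
element `f` with `3 f = 0`, and it is not a free `ℤ`-module. -/
theorem Pool.Agent.Results.MP_2692c1_al.Torsion.result :
    (∃ f : Run7.h727.FreeAltRing ℕ, f ≠ 0 ∧ (3 : ℤ) • f = 0) ∧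
      ¬ Module.Free ℤ (Run7.h727.FreeAltRing ℕ) :=
  ⟨Run7.h727.torsion_free_alt, Run7.h727.not_free_alt⟩
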